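import Pool.Agent.K4H93.BSD.Word

/-! # Regular codes with bounded synchronization delay embed in maximal ones -/

namespace Pool.Agent.Results.MP_832c7d_lc.MaximalCompletion

open Pool.Agent.K4H93.BSD

/-- Every regular code `X` over a finite alphabet with synchronization delay `d` is contained in
a regular maximal (and complete) code `Y` with synchronization delay `2 d + 2`; moreover, if `X`
has two-sided synchronization delay `d`, then `Y` can be taken with two-sided synchronization
delay `2 d + 2`. -/
theorem result {α : Type} [Finite α] (X : Language α) (hreg : X.IsRegular) (hX : IsCode X)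
    (d : ℕ) (hd : SyncDelay X d) :
    ∃ Y : Language α, (∀ w, w ∈ X → w ∈ Y) ∧ Y.IsRegular ∧ IsMaximalCode Y ∧ IsComplete Y ∧
      SyncDelay Y (2 * d + 2) ∧ (SyncDelayTwo X d → SyncDelayTwo Y (2 * d + 2)) := by
  by_cases h : SyncDelayTwo X d
  · obtain ⟨Y, h1, h2, h3, h4, h5⟩ := main_two hreg hX h
    exact ⟨Y, h1, h2, h3, h4, h5.one, fun _ => h5⟩
  · obtain ⟨Y, h1, h2, h3, h4, h5⟩ := main_one hreg hX hd
    exact ⟨Y, h1, h2, h3, h4, h5, fun h' => absurd h' h⟩

end Pool.Agent.Results.MP_832c7d_lc.MaximalCompletion
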